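import Pool.Agent.Y382.DN.Graph
import Pool.Agent.Y433.DN.Sharp
import Pool.Agent.Y941.DN.SIM

/-!
# Graphs of large girth decided by decomposable circuits

The vertices are the `n = 2 ^ m` strings of `m` bits, in any labelling. A DNNF (decomposable
negation normal form: the conjuncts of a conjunction have no variable in common, disjunctions are
unrestricted; this includes nondeterministic read-once branching programs, which may read the
`2 m` bits in a different order on every path) with `z` gates, whose leaves may be arbitrary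
functions of `w` bits, decides which two vertices are adjacent. If the girth is greater than four,
there are at most `2 ^ w z n` edges. Hence the graphs of girth greater than `2 k` with
`c' n ^ (1 + 1 / k)` edges, which the girth conjecture asks for, need `c n ^ (1 / k)` gates. The
first bound is sharp up to a factor of order `log n` for all sizes up to `n ^ (1 / 2)`.
-/

set_option autoImplicit false

namespace Pool.Agent.Results.MP_97687e_co.DecomposableCircuits

open Pool.Agent.H607R2.BW Pool.Agent.Y382.DN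

theorem result :
    -- (1) the bound
    (∀ (m z w : ℕ) (G : SimpleGraph (Str m)), PairDnnf m z w G.Adj → 4 < G.egirth →
      Nat.card G.edgeSet ≤ 2 ^ w * (z * 2 ^ m)) ∧
    -- (2) the graphs of the girth conjecture need `c n ^ (1 / k)` gates
    (∀ (k w : ℕ) (c' : ℝ), 2 ≤ k → 0 < c' → ∃ c : ℝ, 0 < c ∧
      ∀ (m z : ℕ) (G : SimpleGraph (Str m)), PairDnnf m z w G.Adj →
        ((2 * k : ℕ) : ℕ∞) < G.egirth →
        c' * ((2 : ℝ) ^ m) ^ (1 + 1 / (k : ℝ)) ≤ Nat.card G.edgeSet →
        c * ((2 : ℝ) ^ m) ^ (1 / (k : ℝ)) ≤ z) ∧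
    -- (3) the bound (1) is sharp up to a factor of order `log n`, for all sizes up to
    -- `n ^ (1 / 2)`
    (∀ t m : ℕ, 3 ≤ t → 2 * t + 3 ≤ m → ∃ (z : ℕ) (G : SimpleGraph (Str m)),
      PairDnnf m z 1 G.Adj ∧ 4 < G.egirth ∧ z ≤ 1000 * (m + 1) * 2 ^ t ∧
      2 ^ t * 2 ^ m ≤ 8 * Nat.card G.edgeSet) := by
  have h1 : ∀ (m z w : ℕ) (G : SimpleGraph (Str m)), PairDnnf m z w G.Adj → 4 < G.egirth →
      Nat.card G.edgeSet ≤ 2 ^ w * (z * 2 ^ m) := by
    intro m z w G hG hg
    simpa using edges_le (r := 2) le_rfl le_rfl le_rfl G hG (free_of_girth hg)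
  refine ⟨h1, ?_, Pool.Agent.Y433.DN.t_SHG Pool.Agent.Y941.DN.t_SIM⟩
  intro k w c' hk hc'
  have hρ : (0 : ℝ) < ((2 ^ w : ℕ) : ℝ) := by positivity
  refine ⟨c' / ((2 ^ w : ℕ) : ℝ), by positivity, ?_⟩
  intro m z G hG hg h
  have hg4 : 4 < G.egirth := by
    refine lt_of_le_of_lt ?_ hg
    exact_mod_cast (by omega : 4 ≤ 2 * k)
  have h2 : (Nat.card G.edgeSet : ℝ) ≤ ((2 ^ w : ℕ) : ℝ) * (z * 2 ^ m) := by
    exact_mod_cast h1 m z w G hG hg4
  exact real_form hρ h h2

end Pool.Agent.Results.MP_97687e_co.DecomposableCircuits
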