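import Pool.Agent.TH669.AD.Girth
import Pool.Agent.Q54.OD.Use

/-!
# Erdős' girth conjecture and groups: few exceptional orders, all orders in short windows (MP_97687e_co)

Let `G` be ANY finite group of order at most `s m` which acts by automorphisms on a graph `X` with `n` vertices and `e`
edges such that all orbits on the vertices have `m` elements. We consider the property of `m` that all such graphs without
cycles of length at most `2 k` satisfy `m ⌊e / n⌋ ^ R ≤ B 4 ^ size(R) n` for `3 R ≤ k`, and that `e ≥ c n ^ (1 + 1 / k)`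
implies `m ≤ B 4 ^ size(R) (2 / c) ^ R n ^ (1 - R / k)`, where `B = (s log m) ^ (K log log m)`. So, for `k ≥ 3`, large
graphs with the number of edges predicted by the conjecture are no Cayley graphs of groups of order `m`, and have at least
`n ^ (1 / 5 - ε)` orbits under every group of order `m` acting freely.

1. For every `A` there is `K` such that this holds for all `m ≤ x` with at most `x / log ^ A x` exceptions, for all `s`
   simultaneously; so it holds also for almost all `m` of every set with at least `x / log ^ B x` elements up to `x`, for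
   instance for almost all `m = p - 1`, `p` prime.
2. For `0 < θ < 1` and all real `y ∈ [N ^ (1 - θ), 2 N ^ (1 - θ)]` outside a set of measure at most
   `N ^ (1 - θ - κ)` it holds for ALL `m` in the windows of radius `log ^ A N` around the multiples `k y`,
   `k ≤ N ^ θ`, with at most `N ^ θ / log ^ U N` exceptional `k`.
3. Let `b k ≥ exp (k ^ δ)` be integers, for instance `b k = 2 ^ k`. For almost every real `α > 0` and all large `k` it
   holds for ALL `m` in the window of radius `(log (b k)) ^ A` around `α b k`.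

From Mathlib: `volume`: the Lebesgue measure; `∀ᵐ α : ℝ`: for almost all real `α`; `∀ᶠ k in atTop`: for all large `k`.

Proof. For most `m` the primes `p > y = (s log m) ^ O(1)` which divide `m` divide it only once and no divisor `> 1` of
the order of the group is congruent to `1` modulo such a `p`; the product of the Sylow subgroups for these primes is a
cyclic group which acts freely (starting files, `TH669.AD`), and the theorem of the starting files for abelian groups
applies. New is a bound with `log ^ A x` saved for the number of exceptions, uniformly in `s`, from an Euler product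
estimate for the part of `m` composed of the primes `p ≤ y`. The windows are treated by the count of the elements of
arbitrary sparse sets near the multiples of real numbers (starting files, `Pool.Agent.H438R2.DL`, in the form of
helper319, `Pool.Agent.Q319.DR`).
-/

set_option autoImplicit false

namespace Pool.Agent.Results.MP_97687e_co.OrdersInWindows

open Filter MeasureTheory

/-- `Bound m s B`: for every finite graph `X` with `n` vertices, `e` edges and no cycle of length at
most `2 k`, `k ≥ 1`, every finite group `G` of order at most `s m` acting by automorphisms such that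
all orbits on the vertices have `m` elements, and all `R` with `3 R ≤ k`:
`m ⌊e / n⌋ ^ R ≤ B 4 ^ size(R) n`; and `e ≥ c n ^ (1 + 1 / k)`, `c > 0`, implies
`m ≤ B 4 ^ size(R) (2 / c) ^ R n ^ (1 - R / k)`. -/
def Bound (m s : ℕ) (B : ℝ) : Prop :=
  ∀ (V : Type) [Fintype V] [Nonempty V] (X : SimpleGraph V) (G : Type) [Group G] [Finite G]
    [MulAction G V], Nat.card G ≤ s * m → (∀ v : V, (MulAction.orbit G v).ncard = m) →
    (∀ (a : G) (u v : V), X.Adj u v → X.Adj (a • u) (a • v)) →
    ∀ k : ℕ, 1 ≤ k → (∀ (v : V) (w : X.Walk v v), w.IsCycle → 2 * k < w.length) →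
    ∀ R : ℕ, 3 * R ≤ k →
      (m : ℝ) * ((X.edgeSet.ncard / Fintype.card V : ℕ) : ℝ) ^ R ≤
        B * 4 ^ Nat.size R * Fintype.card V ∧
      ∀ c : ℝ, 0 < c → c * (Fintype.card V : ℝ) ^ (1 + 1 / (k : ℝ)) ≤ (X.edgeSet.ncard : ℝ) →
        (m : ℝ) ≤ B * 4 ^ Nat.size R * (2 / c) ^ R *
          (Fintype.card V : ℝ) ^ (1 - (R : ℝ) / (k : ℝ))

/-- The bounds hold for all `s ≥ 1`, with `B = (s log m) ^ (K log log m)`. -/
def Good (K m : ℕ) : Prop :=
  ∀ s : ℕ, 1 ≤ s → Bound m s ((s * Real.log m) ^ ((K : ℝ) * Real.log (Real.log m)))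

open Classical in
/-- The number of the `k` with `1 ≤ k ≤ X` for which not all natural numbers `m` at a distance of at most `w` from `k y`
have the property `P`. -/
noncomputable def exceptions (X y w : ℝ) (P : ℕ → Prop) : ℕ :=
  ((Finset.Icc 1 ⌊X⌋₊).filter (fun k : ℕ => ∃ n : ℕ, |(n : ℝ) - k * y| ≤ w ∧ ¬ P n)).card

lemma few : Pool.Agent.Q54.OD.Few Good := by
  refine Pool.Agent.Q54.OD.few_of Good fun K m hK hm hg => ?_
  intro s hs V _ _ X G _ _ _ hG horb haut k hk hgirth R hR
  obtain ⟨y, hsy, hgd⟩ := hg s hs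
  exact Pool.Agent.TH669.AD.edges_part (Pool.Agent.Q54.OD.two_le_loss hK hs hm) hsy hgd (by omega) V X G horb hG
    haut k hk hgirth R hR

/-- `Good K m`: the bounds of `Bound` hold for all `s ≥ 1`, with `B = (s log m) ^ (K log log m)`.
1. For every `A` there is `K` such that for all large `x` at most `x / log ^ A x` of the `m ≤ x` are not good.
2. For `0 < θ < 1` there is `κ > 0` such that for all `A`, `U` there is `K` such that for all large `N` there is a set
   `E` of real numbers of measure at most `N ^ (1 - θ - κ)` with: for every real `y` with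
   `N ^ (1 - θ) ≤ y ≤ 2 N ^ (1 - θ)` outside `E` and for all `k ≤ N ^ θ`, with at most `N ^ θ / log ^ U N` exceptions,
   ALL `m` with `|m - k y| ≤ log ^ A N` are good.
3. For all `A` and `δ > 0` there is `K` such that for all integers `b k` with `b k ≥ exp (k ^ δ)` for large `k` and for
   almost every real `α > 0`, for all large `k`, ALL `m` with `|m - α b k| ≤ (log (b k)) ^ A` are good. -/
theorem result :
    (∀ A : ℕ, ∃ K x₀ : ℕ, ∀ x : ℕ, x₀ ≤ x →
      ({m : ℕ | 1 ≤ m ∧ m ≤ x ∧ ¬ Good K m}.ncard : ℝ) ≤ x / Real.log x ^ A) ∧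
    (∀ θ : ℝ, 0 < θ → θ < 1 → ∃ κ : ℝ, 0 < κ ∧ ∀ A U : ℕ, ∃ K N₀ : ℕ, ∀ N : ℕ, N₀ ≤ N →
      ∃ E : Set ℝ, MeasurableSet E ∧ volume E ≤ ENNReal.ofReal ((N : ℝ) ^ (1 - θ - κ)) ∧
        ∀ y : ℝ, (N : ℝ) ^ (1 - θ) ≤ y → y ≤ 2 * (N : ℝ) ^ (1 - θ) → y ∉ E →
          (exceptions ((N : ℝ) ^ θ) y (Real.log N ^ A) (Good K) : ℝ) ≤ (N : ℝ) ^ θ / Real.log N ^ U) ∧
    (∀ (A : ℕ) (δ : ℝ), 0 < δ → ∃ K : ℕ, ∀ b : ℕ → ℕ, (∀ᶠ k : ℕ in atTop, Real.exp ((k : ℝ) ^ δ) ≤ b k) →
      ∀ᵐ α : ℝ, 0 < α → ∀ᶠ k : ℕ in atTop, ∀ m : ℕ, |(m : ℝ) - α * b k| ≤ Real.log (b k) ^ A → Good K m) :=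
  ⟨few, Pool.Agent.Q54.OD.multiples Good few, Pool.Agent.Q54.OD.dilates Good few⟩

end Pool.Agent.Results.MP_97687e_co.OrdersInWindows
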