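import Pool.Agent.Q266.GD.Moore

/-!
# Dense graphs of large girth are rigid

If the girth conjecture holds for `k` then there are graphs `G` of girth greater than `2 k` with
minimum degree `δ` and with at most `C (δ - 2) ^ k` vertices.  We compare two immersions of such a
graph (for instance an automorphism and the identity): if they are different then they differ at a
positive proportion of the vertices, and at almost all these vertices the images are at distance at
least `k - 1`.
-/

set_option autoImplicit false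

open Finset

namespace Pool.Agent.Results.MP_97687e_co.RigidExtremalGraphs

open Pool.Agent.Q266.GD

/-- A homomorphism of graphs which is injective on the neighbourhood of each vertex. -/
structure Immersion {V W : Type} (G : SimpleGraph V) (H : SimpleGraph W) (f : V → W) : Prop where
  hom : ∀ u v, G.Adj u v → H.Adj (f u) (f v)
  inj : ∀ v u u', G.Adj v u → G.Adj v u' → f u = f u' → u = u'

/-- the vertices at which the maps differ -/
def Moved {V W : Type} (f h : V → W) : Set V := {v | f v ≠ h v}

/-- the vertices `v` such that `f v` and `h v` are different and at distance at most `r` -/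
def Near {V W : Type} (H : SimpleGraph W) (f h : V → W) (r : ℕ) : Set V :=
  {v | f v ≠ h v ∧ H.dist (f v) (h v) ≤ r}

/-- the pairs of adjacent vertices such that the maps agree at the first and differ at the
second -/
def Boundary {V W : Type} (G : SimpleGraph V) (f h : V → W) : Set (V × V) :=
  {p | G.Adj p.1 p.2 ∧ f p.1 = h p.1 ∧ f p.2 ≠ h p.2}

/-- the number of vertices of the tree of radius `k` with degrees `δ - 1` -/
def moore (δ k : ℕ) : ℕ := 1 + (δ - 1) * ∑ i ∈ range k, (δ - 2) ^ i

section Aux

variable {V W : Type} {G : SimpleGraph V} {H : SimpleGraph W} {f h : V → W} {k δ : ℕ}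

theorem Immersion.imm (hf : Immersion G H f) : Imm G H f := ⟨hf.hom, hf.inj⟩

theorem nc_of_egirth (hg : ((2 * k : ℕ) : ℕ∞) < H.egirth) : NC H (2 * k) := by
  refine nc_of_girth fun v p hp => ?_
  have h1 : H.egirth ≤ (p.length : ℕ∞) := SimpleGraph.le_egirth.1 le_rfl v p hp
  have h2 : ((2 * k : ℕ) : ℕ∞) < (p.length : ℕ∞) := lt_of_lt_of_le hg h1
  exact_mod_cast h2

variable [Fintype V]

theorem moved_eq : (Moved f h).ncard = (Mv f h).card := by
  rw [← Set.ncard_coe_finset]
  congr 1
  ext v
  simp [Moved, mem_Mv]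

theorem near_eq (r : ℕ) : (Near H f h r).ncard = (Sv H f h r).card := by
  rw [← Set.ncard_coe_finset]
  congr 1
  ext v
  simp [Near, mem_Sv]

theorem boundary_eq : (Boundary G f h).ncard = (Bd G f h).card := by
  rw [← Set.ncard_coe_finset]
  congr 1
  ext v
  simp [Boundary, mem_Bd]

theorem moved_le : (Moved f h).ncard ≤ Fintype.card V := by
  rw [moved_eq]
  exact card_le_univ _

theorem pow_le_moore (hδ : 3 ≤ δ) (hk : 1 ≤ k) : (δ - 2) ^ k ≤ moore δ k := by
  obtain ⟨i, rfl⟩ : ∃ i, k = i + 1 := ⟨k - 1, by omega⟩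
  have h5 : (δ - 2) ^ i ≤ ∑ i ∈ range (i + 1), (δ - 2) ^ i :=
    single_le_sum (f := fun i => (δ - 2) ^ i) (fun _ _ => Nat.zero_le _) (self_mem_range_succ i)
  unfold moore
  calc (δ - 2) ^ (i + 1) = (δ - 2) * (δ - 2) ^ i := by ring
    _ ≤ (δ - 1) * ∑ i ∈ range (i + 1), (δ - 2) ^ i := Nat.mul_le_mul (by omega) h5
    _ ≤ _ := by omega

theorem aux {n X C D : ℝ} {j : ℕ} (hn : 0 ≤ n) (hX : 0 ≤ X) (hC : 0 < C) (hD : 1 ≤ D)
    (hk : 1 ≤ k) (h1 : n ≤ C * D ^ k) (h2 : D ^ j * X ≤ n) :
    X ≤ C ^ ((j : ℝ) / k) * n ^ (1 - (j : ℝ) / k) := by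
  have hk0 : (0 : ℝ) < k := by exact_mod_cast hk
  rcases hn.eq_or_lt with hz | hpos
  · rw [← hz] at h2
    have h3 : 0 < D ^ j := by positivity
    have h4 : X ≤ 0 := by
      by_contra hlt
      push Not at hlt
      have := mul_pos h3 hlt
      linarith
    have h5 : 0 ≤ C ^ ((j : ℝ) / k) * n ^ (1 - (j : ℝ) / k) := by positivity
    linarith
  have h3 : n ^ ((j : ℝ) / k) ≤ C ^ ((j : ℝ) / k) * D ^ j := by
    calc n ^ ((j : ℝ) / k) ≤ (C * D ^ k) ^ ((j : ℝ) / k) :=
          Real.rpow_le_rpow hn h1 (by positivity)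
      _ = C ^ ((j : ℝ) / k) * (D ^ k) ^ ((j : ℝ) / k) := by
          rw [Real.mul_rpow hC.le (by positivity)]
      _ = C ^ ((j : ℝ) / k) * D ^ j := by
          congr 1
          rw [← Real.rpow_natCast D k, ← Real.rpow_mul (by linarith), ← Real.rpow_natCast D j]
          congr 1
          field_simp
  have hE : 0 < n ^ ((j : ℝ) / k) := Real.rpow_pos_of_pos hpos _
  rw [Real.rpow_sub hpos, Real.rpow_one, ← mul_div_assoc, le_div_iff₀ hE]
  calc X * n ^ ((j : ℝ) / k) ≤ X * (C ^ ((j : ℝ) / k) * D ^ j) := mul_le_mul_of_nonneg_left h3 hX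
    _ = C ^ ((j : ℝ) / k) * (D ^ j * X) := by ring
    _ ≤ C ^ ((j : ℝ) / k) * n := mul_le_mul_of_nonneg_left h2 (by positivity)

end Aux

/-- **Dense graphs of large girth are rigid.**  Let `k ≥ 2`, `δ ≥ 3`, let `G` be a finite graph with
minimum degree at least `δ`, `H` a graph (finite or not) of girth greater than `2 k`, and let
`f ≠ h` be immersions of `G` in `H`.
(1) The maps differ at at least `moore δ k ≥ (δ - 2) ^ k` vertices; hence at at least `n / C`
vertices if `G` has `n ≤ C (δ - 2) ^ k` vertices.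
Let `H` be connected.
(2) At some vertex the images are at distance at least `k`.
(3) If `r + 2 (j + 1) ≤ k`, at most `m / ((δ - 2) (δ - 1) ^ j)` vertices have different images at
distance at most `r`, where `m` is the number of vertices at which the maps differ. Hence if
`n ≤ C (δ - 2) ^ k`, then for `1 ≤ j`, `2 j < k` at most `C ^ (j / k) n ^ (1 - j / k)` vertices have
different images at distance at most `k - 2 j`; for `j = 1`: the images are at distance at least
`k - 1` at all but `O(n ^ (1 - 1 / k))` vertices at which the maps differ.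
(4) If `2 (j + 1) ≤ k`, at most `m / (δ - 1) ^ j` edges join a vertex at which the maps agree to one
at which they differ; if `n ≤ C (δ - 2) ^ k` there are at most `C ^ (j / k) n ^ (1 - j / k)` such
edges.
(5) Let a finite group `Γ` act faithfully by automorphisms on a graph `G` with girth greater than
`2 k` (not necessarily connected), minimum degree at least `δ` and `n` vertices. Then the number `t`
of orbits satisfies `|Γ| t + (|Γ| - 1) moore δ k ≤ |Γ| n`; so at most
`n - (1 - 1 / |Γ|) (δ - 2) ^ k` orbits. -/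
theorem result :
    (∀ (V W : Type) [Fintype V] (G : SimpleGraph V) (H : SimpleGraph W) (δ k : ℕ) (f h : V → W),
      3 ≤ δ → 2 ≤ k → (∀ v, δ ≤ (G.neighborSet v).ncard) → ((2 * k : ℕ) : ℕ∞) < H.egirth →
      Immersion G H f → Immersion G H h → f ≠ h →
      moore δ k ≤ (Moved f h).ncard ∧ (δ - 2) ^ k ≤ moore δ k ∧
      (∀ C : ℝ, 0 < C → (Fintype.card V : ℝ) ≤ C * ((δ : ℝ) - 2) ^ k →
        (Fintype.card V : ℝ) ≤ C * ((Moved f h).ncard : ℝ)) ∧
      (H.Connected →
        (∃ v, k ≤ H.dist (f v) (h v)) ∧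
        (∀ r j : ℕ, r + 2 * (j + 1) ≤ k →
          (δ - 2) * (δ - 1) ^ j * (Near H f h r).ncard ≤ (Moved f h).ncard) ∧
        (∀ j : ℕ, 2 * (j + 1) ≤ k →
          (δ - 1) ^ j * (Boundary G f h).ncard ≤ (Moved f h).ncard) ∧
        (∀ C : ℝ, 0 < C → (Fintype.card V : ℝ) ≤ C * ((δ : ℝ) - 2) ^ k →
          (∀ j : ℕ, 1 ≤ j → 2 * j < k → ((Near H f h (k - 2 * j)).ncard : ℝ) ≤
            C ^ ((j : ℝ) / k) * (Fintype.card V : ℝ) ^ (1 - (j : ℝ) / k)) ∧
          (∀ j : ℕ, 2 * (j + 1) ≤ k → ((Boundary G f h).ncard : ℝ) ≤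
            C ^ ((j : ℝ) / k) * (Fintype.card V : ℝ) ^ (1 - (j : ℝ) / k))))) ∧
    (∀ (V : Type) [Fintype V] (Γ : Type) [Group Γ] [Finite Γ] [MulAction Γ V] [FaithfulSMul Γ V]
      (G : SimpleGraph V) (δ k : ℕ), 3 ≤ δ → 2 ≤ k → (∀ v, δ ≤ (G.neighborSet v).ncard) →
      ((2 * k : ℕ) : ℕ∞) < G.egirth → (∀ (g : Γ) (u v : V), G.Adj u v → G.Adj (g • u) (g • v)) →
      Nat.card Γ * Nat.card (MulAction.orbitRel.Quotient Γ V) + (Nat.card Γ - 1) * moore δ k ≤
        Nat.card Γ * Fintype.card V) := by
  classical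
  constructor
  · intro V W _ G H δ k f h h3 hk hdeg hg hf hh hne
    have hM := nc_of_egirth hg
    have hδ : ∀ v, δ ≤ (nb G v).card := fun v => by
      rw [← ncard_nb]
      exact hdeg v
    have hne' := Function.ne_iff.1 hne
    have I0 : moore δ k ≤ (Moved f h).ncard := by
      rw [moved_eq]
      exact item6 hM (by omega) hδ h3 hf.imm hh.imm hne' k le_rfl
    have hδ2 : (3 : ℝ) ≤ (δ : ℝ) := by exact_mod_cast h3
    have hc1 : ((δ - 1 : ℕ) : ℝ) = (δ : ℝ) - 1 := by
      rw [Nat.cast_sub (by omega)]
      simp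
    have hc2 : ((δ - 2 : ℕ) : ℝ) = (δ : ℝ) - 2 := by
      rw [Nat.cast_sub (by omega)]
      simp
    have hm : ((Moved f h).ncard : ℝ) ≤ (Fintype.card V : ℝ) := by exact_mod_cast moved_le
    have hp := pow_le_moore h3 (by omega : 1 ≤ k)
    refine ⟨I0, hp, ?_, ?_⟩
    · intro C hC hn
      have h1 : (((δ - 2) ^ k : ℕ) : ℝ) ≤ ((Moved f h).ncard : ℝ) := by
        exact_mod_cast hp.trans I0
      push_cast at h1
      rw [hc2] at h1
      exact hn.trans (mul_le_mul_of_nonneg_left h1 hC.le)
    · intro hc
      have I1 : ∀ r j : ℕ, r + 2 * (j + 1) ≤ k →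
          (δ - 2) * (δ - 1) ^ j * (Near H f h r).ncard ≤ (Moved f h).ncard := by
        intro r j hj
        rw [moved_eq, near_eq]
        exact item1 hM hc hδ hf.imm hh.imm r j (by omega)
      have I2 : ∀ j : ℕ, 2 * (j + 1) ≤ k →
          (δ - 1) ^ j * (Boundary G f h).ncard ≤ (Moved f h).ncard := by
        intro j hj
        rw [moved_eq, boundary_eq]
        exact item2 hM hc hδ hf.imm hh.imm j (by omega)
      refine ⟨?_, I1, I2, ?_⟩
      · obtain ⟨v, hv⟩ := item4 hM hc hδ h3 hf.imm hh.imm hne'
        exact ⟨v, by omega⟩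
      · intro C hC hn
        constructor
        · intro j hj1 hj2
          obtain ⟨i, rfl⟩ : ∃ i, j = i + 1 := ⟨j - 1, by omega⟩
          have h1 := I1 (k - 2 * (i + 1)) i (by omega)
          have h2 : (δ - 2) ^ (i + 1) * (Near H f h (k - 2 * (i + 1))).ncard ≤
              (Moved f h).ncard := by
            refine le_trans (Nat.mul_le_mul_right _ ?_) h1
            rw [pow_succ, mul_comm]
            exact Nat.mul_le_mul_left _ (Nat.pow_le_pow_left (by omega) i)
          have h4 : (((δ - 2) ^ (i + 1) * (Near H f h (k - 2 * (i + 1))).ncard : ℕ) : ℝ) ≤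
              ((Moved f h).ncard : ℝ) := by exact_mod_cast h2
          push_cast at h4
          rw [hc2] at h4
          have := aux (j := i + 1) (Nat.cast_nonneg _) (Nat.cast_nonneg _) hC (by linarith)
            (by omega : 1 ≤ k) hn (h4.trans hm)
          exact this
        · intro j hj
          have h1 := I2 j hj
          have h2 : (δ - 2) ^ j * (Boundary G f h).ncard ≤ (Moved f h).ncard :=
            le_trans (Nat.mul_le_mul_right _ (Nat.pow_le_pow_left (by omega) j)) h1
          have h4 : (((δ - 2) ^ j * (Boundary G f h).ncard : ℕ) : ℝ) ≤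
              ((Moved f h).ncard : ℝ) := by exact_mod_cast h2
          push_cast at h4
          rw [hc2] at h4
          exact aux (j := j) (Nat.cast_nonneg _) (Nat.cast_nonneg _) hC (by linarith)
            (by omega : 1 ≤ k) hn (h4.trans hm)
  · intro V _ Γ _ _ _ _ G δ k h3 hk hdeg hg hA
    have : Fintype Γ := Fintype.ofFinite Γ
    have hM := nc_of_egirth hg
    have hδ : ∀ v, δ ≤ (nb G v).card := fun v => by
      rw [← ncard_nb]
      exact hdeg v
    have hfix : ∀ g : Γ, g ≠ 1 →
        Fintype.card (MulAction.fixedBy V g) + moore δ k ≤ Fintype.card V := by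
      intro g hg1
      have hne : ∃ v : V, g • v ≠ v := by
        by_contra hcon
        push Not at hcon
        exact hg1 (FaithfulSMul.eq_of_smul_eq_smul (α := V) fun v => by rw [hcon v, one_smul])
      have hf : Imm G G (fun v => g • v) :=
        ⟨fun u v h => hA g u v h, fun _ u u' _ _ h => MulAction.injective g h⟩
      have hh : Imm G G (fun v => v) := ⟨fun u v h => h, fun _ u u' _ _ h => h⟩
      have h1 := item6 hM (by omega) hδ h3 hf hh hne k le_rfl
      have h2 : Fintype.card (MulAction.fixedBy V g) =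
          (univ.filter (fun v : V => g • v = v)).card := by
        rw [Fintype.card_subtype]
        rfl
      have h4 : (Mv (fun v : V => g • v) (fun v => v)).card =
          (univ.filter (fun v : V => ¬ g • v = v)).card := by
        congr 1
      have h5 := card_filter_add_card_filter_not (s := (univ : Finset V)) (fun v : V => g • v = v)
      rw [card_univ] at h5
      have h6 : moore δ k ≤ (univ.filter (fun v : V => ¬ g • v = v)).card := by
        rw [← h4]
        exact h1
      omega
    have hB := MulAction.sum_card_fixedBy_eq_card_orbits_mul_card_group Γ V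
    have h1 : Fintype.card (MulAction.fixedBy V (1 : Γ)) = Fintype.card V := by
      rw [Fintype.card_subtype]
      have : (univ.filter (fun v : V => v ∈ MulAction.fixedBy V (1 : Γ))) = univ := by
        ext v
        simp
      rw [this, card_univ]
    have h2 : ∑ g ∈ univ.erase (1 : Γ), (Fintype.card (MulAction.fixedBy V g) + moore δ k) ≤
        ∑ g ∈ univ.erase (1 : Γ), Fintype.card V :=
      sum_le_sum fun g hg => hfix g (ne_of_mem_erase hg)
    have h4 := add_sum_erase univ (fun g : Γ => Fintype.card (MulAction.fixedBy V g))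
      (mem_univ 1)
    rw [sum_add_distrib, sum_const, sum_const, smul_eq_mul, smul_eq_mul,
      card_erase_of_mem (mem_univ _), card_univ] at h2
    have hpos : 0 < Fintype.card Γ := Fintype.card_pos
    have e1 : Nat.card Γ = Fintype.card Γ := Nat.card_eq_fintype_card
    have e2 : Nat.card (MulAction.orbitRel.Quotient Γ V) =
        Fintype.card (Quotient (MulAction.orbitRel Γ V)) := by
      rw [Nat.card_eq_fintype_card]
    rw [e1, e2]
    rw [h1, hB] at h4
    obtain ⟨m, hm⟩ : ∃ m, Fintype.card Γ = m + 1 := ⟨Fintype.card Γ - 1, by omega⟩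
    rw [hm] at h2 h4 ⊢
    simp only [Nat.add_sub_cancel] at h2 ⊢
    nlinarith

end Pool.Agent.Results.MP_97687e_co.RigidExtremalGraphs
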