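import Pool.Agent.Q248.EX.Girth

/-!
# The girth conjecture is equivalent to its expander form

The girth conjecture for `k` asks for graphs of girth greater than `2 k` with `n` vertices and at least
`c n^{1+1/k}` edges, for all large `n`. We show that it is equivalent to the existence, for all
degrees `d`, of bipartite graphs of girth greater than `2 k` with at most `C d^k` vertices and
all degrees between `d` and `C d` which are moreover

* edge expanders: at least `(d / C) min (|S|, |Sᶜ|)` edges leave each set `S` of vertices,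
* spectral expanders: `d ∑ f² ≤ C ∑ (f x - f y)²` (sum over adjacent pairs) if `∑ f = 0`, that is the
  Laplace operator divided by `d` has a spectral gap,
* of diameter at most `C`.

Here `C` depends only on `k`. So it does not cost anything to look only for constructions with
all properties of this kind that the known constructions (generalised polygons) have.

Proof. By the growth of balls dense subsets of a graph of girth greater than `2 k` with average degree
`c n^{1/k}` have at least `σ n` elements. The disjoint sets `U` with `d(U) ≥ τ |U|` for which the sum of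
all `d(U) - 2 τ |U| + ρ` is maximal have no sparse cuts. The spectral gap follows with Cheeger's
inequality.
-/

set_option autoImplicit false

namespace Pool.Agent.Results.MP_97687e_co.SpectralForm

open SimpleGraph Finset

/-- The number of edges with exactly one end in `S`. -/
noncomputable def boundary {W : Type} (H : SimpleGraph W) (S : Set W) : ℕ :=
  {p : W × W | p.1 ∈ S ∧ p.2 ∉ S ∧ H.Adj p.1 p.2}.ncard

/-- The sum of `(f x - f y) ^ 2` over all pairs `(x, y)` of adjacent vertices. -/
noncomputable def energy {W : Type} (H : SimpleGraph W) (f : W → ℝ) : ℝ :=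
  ∑ᶠ p ∈ {p : W × W | H.Adj p.1 p.2}, (f p.1 - f p.2) ^ 2

theorem result (k : ℕ) (hk : 2 ≤ k) :
    -- the girth conjecture for the parameter `k`
    (∃ c : ℝ, 0 < c ∧ ∃ N : ℕ, ∀ n : ℕ, N ≤ n → ∃ G : SimpleGraph (Fin n),
      ((2 * k : ℕ) : ℕ∞) < G.egirth ∧ c * (n : ℝ) ^ (1 + 1 / (k : ℝ)) ≤ (G.edgeSet.ncard : ℝ)) ↔
    -- its expander form
    ∃ C : ℝ, ∀ d : ℕ, 1 ≤ d → ∃ (m : ℕ) (H : SimpleGraph (Fin m)), 0 < m ∧
      (m : ℝ) ≤ C * (d : ℝ) ^ k ∧ ((2 * k : ℕ) : ℕ∞) < H.egirth ∧ H.Colorable 2 ∧
      (∀ x, (d : ℝ) ≤ (H.neighborSet x).ncard ∧ ((H.neighborSet x).ncard : ℝ) ≤ C * d) ∧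
      (∀ S : Set (Fin m), (d : ℝ) * min (S.ncard : ℝ) (Sᶜ.ncard : ℝ) ≤ C * boundary H S) ∧
      (∀ f : Fin m → ℝ, ∑ x, f x = 0 → (d : ℝ) * ∑ x, f x ^ 2 ≤ C * energy H f) ∧
      ∀ x y, ∃ p : H.Walk x y, (p.length : ℝ) ≤ C :=
  Pool.Agent.Q248.EX.spec_iff k hk

end Pool.Agent.Results.MP_97687e_co.SpectralForm
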